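import Pool.Agent.R666.MM.Stms

/-! MP_488bb9_co, piece E1: existence of the encoding. -/

set_option autoImplicit false

namespace MMR.E1

open MMR MMR.F Classical

lemma comparable {α : Type} [PartialOrder α] [Fintype α] (hF : Forest α) (x : α) :
    ∀ y z : α, y < x → z < x → y ≤ z ∨ z ≤ y := by
  induction x using WellFoundedLT.induction with
  | ind x ih =>
    intro y z hy hz
    obtain ⟨y', hy1, hy2⟩ := exists_le_covBy_of_lt hy
    obtain ⟨z', hz1, hz2⟩ := exists_le_covBy_of_lt hz
    obtain rfl := hF x y' z' hy2 hz2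
    rcases eq_or_lt_of_le hy1 with rfl | h1
    · exact Or.inr hz1
    · rcases eq_or_lt_of_le hz1 with rfl | h2
      · exact Or.inl hy1
      · exact ih y' hy2.lt y z h1 h2

theorem main : EncExStm := by
  intro α _ _ col hF S
  induction S using Finset.strongInduction with
  | H S ih =>
    rcases S.eq_empty_or_nonempty with rfl | hne
    · exact ⟨_, Enc.nil⟩
    · obtain ⟨x, hx, hmin⟩ := S.exists_minimal hne
      have hmin' : ∀ y ∈ S, ¬ y < x := by
        intro y hy h
        exact absurd (hmin hy h.le) (not_le_of_gt h)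
      obtain ⟨ch, hch⟩ := ih (S.filter fun y => x < y)
        (Finset.filter_ssubset.2 ⟨x, hx, lt_irrefl x⟩)
      obtain ⟨rest, hrest⟩ := ih (S.filter fun y => y ≠ x ∧ ¬ x < y)
        (Finset.filter_ssubset.2 ⟨x, hx, fun h => h.1 rfl⟩)
      refine ⟨_, Enc.node S _ _ x ch rest hx (fun y => by simp) (fun y => by simp) ?_ ?_ hch hrest⟩
      · intro y hy
        exact hmin' y (Finset.mem_filter.1 hy).1
      · intro r hr t ht
        obtain ⟨hr1, hr2, hr3⟩ := Finset.mem_filter.1 hr
        obtain ⟨ht1, ht2⟩ := Finset.mem_filter.1 ht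
        refine ⟨fun h => ?_, fun h => hr3 (ht2.trans h)⟩
        rcases comparable hF t r x h ht2 with h1 | h1
        · exact hmin' r hr1 (lt_of_le_of_ne h1 hr2)
        · exact hr3 (lt_of_le_of_ne h1 (Ne.symm hr2))

end MMR.E1
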