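import Pool.Agent.R666.MM.Stms

/-!
# E2: moves of the poset game are moves in the encoding
-/

namespace MMR.E2

open MMR MMR.F Classical

variable {α : Type} [PartialOrder α] {col : α → Bool}

theorem enc_empty {S : Finset α} {f : F} (h : Enc col S f) (hS : S = ∅) : f = F.nil := by
  cases h with
  | nil => rfl
  | node T R x ch rest hx =>
    exfalso
    subst hS
    simp_all

theorem enc_app {T : Finset α} {g : F} (hT : Enc col T g) {R : Finset α} {h : F}
    (hR : Enc col R h) (h1 : ∀ r ∈ R, ∀ t ∈ T, ¬ r < t ∧ ¬ t < r) (h2 : ∀ r ∈ R, r ∉ T) :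
    Enc col (T ∪ R) (g.app h) := by
  induction hT with
  | nil => simpa [F.app] using hR
  | node S T' R' x ch rest hx hT' hR' hRx hRT eT eR ihT ihR =>
    have hR'S : ∀ y ∈ R', y ∈ S := fun y hy => ((hR' y).mp hy).1
    have hT'S : ∀ y ∈ T', y ∈ S := fun y hy => ((hT' y).mp hy).1
    have ih := ihR (fun r hr t ht => h1 r hr t (hR'S t ht)) (fun r hr hr' => h2 r hr (hR'S r hr'))
    show Enc col (S ∪ R) (node (col x) ch (rest.app h))
    refine Enc.node (S ∪ R) T' (R' ∪ R) x ch (rest.app h) (Finset.mem_union_left _ hx) ?_ ?_ ?_ ?_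
      eT ih
    · intro y
      rw [hT' y, Finset.mem_union]
      constructor
      · exact fun ⟨a, b⟩ => ⟨Or.inl a, b⟩
      · rintro ⟨a | a, b⟩
        · exact ⟨a, b⟩
        · exact absurd b (h1 y a x hx).2
    · intro y
      rw [Finset.mem_union, Finset.mem_union, hR' y]
      constructor
      · rintro (⟨a, b, c⟩ | a)
        · exact ⟨Or.inl a, b, c⟩
        · refine ⟨Or.inr a, ?_, (h1 y a x hx).2⟩
          rintro rfl
          exact h2 y a hx
      · rintro ⟨a | a, b, c⟩
        · exact Or.inl ⟨a, b, c⟩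
        · exact Or.inr a
    · intro y hy
      rcases Finset.mem_union.mp hy with hy | hy
      · exact hRx y hy
      · exact (h1 y hy x hx).1
    · intro r hr t ht
      rcases Finset.mem_union.mp hr with hr | hr
      · exact hRT r hr t ht
      · exact h1 r hr t (hT'S t ht)

theorem enc_max {S : Finset α} {f : F} (h : Enc col S f) : ∀ x₀ ∈ S, (∀ y ∈ S, ¬ x₀ < y) →
    ∃ f', Leaf (col x₀) f f' ∧ Enc col (S.erase x₀) f' := by
  induction h with
  | nil => intro x₀ hx₀; simp at hx₀
  | node S T R x ch rest hx hT hR hRx hRT eT eR ihT ihR =>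
    intro x₀ hx₀ hmax
    by_cases h0 : x₀ = x
    · subst h0
      have hTe : T = ∅ := by
        rw [Finset.eq_empty_iff_forall_notMem]
        intro y hy
        have := (hT y).mp hy
        exact hmax y this.1 this.2
      have hch := enc_empty eT hTe
      subst hch
      refine ⟨rest, Leaf.here rest, ?_⟩
      have : S.erase x₀ = R := by
        ext y
        rw [Finset.mem_erase, hR y]
        constructor
        · exact fun ⟨a, b⟩ => ⟨b, a, hmax y b⟩
        · exact fun ⟨a, b, _⟩ => ⟨b, a⟩
      rw [this]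
      exact eR
    · by_cases h1 : x < x₀
      · obtain ⟨ch', l, e⟩ := ihT x₀ ((hT x₀).mpr ⟨hx₀, h1⟩)
          (fun y hy => hmax y ((hT y).mp hy).1)
        refine ⟨node (col x) ch' rest, Leaf.down _ _ _ _ l, ?_⟩
        refine Enc.node (S.erase x₀) (T.erase x₀) R x ch' rest
          (Finset.mem_erase.mpr ⟨fun h => h0 h.symm, hx⟩) ?_ ?_ hRx ?_ e eR
        · intro y
          rw [Finset.mem_erase, Finset.mem_erase, hT y]
          tauto
        · intro y
          rw [Finset.mem_erase, hR y]
          constructor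
          · rintro ⟨a, b, c⟩
            refine ⟨⟨?_, a⟩, b, c⟩
            rintro rfl
            exact c h1
          · rintro ⟨⟨_, a⟩, b, c⟩
            exact ⟨a, b, c⟩
        · intro r hr t ht
          exact hRT r hr t (Finset.mem_erase.mp ht).2
      · obtain ⟨rest', l, e⟩ := ihR x₀ ((hR x₀).mpr ⟨hx₀, h0, h1⟩)
          (fun y hy => hmax y ((hR y).mp hy).1)
        refine ⟨node (col x) ch rest', Leaf.next _ _ _ _ l, ?_⟩
        refine Enc.node (S.erase x₀) T (R.erase x₀) x ch rest'
          (Finset.mem_erase.mpr ⟨fun h => h0 h.symm, hx⟩) ?_ ?_ ?_ ?_ eT e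
        · intro y
          rw [Finset.mem_erase, hT y]
          constructor
          · rintro ⟨a, b⟩
            refine ⟨⟨?_, a⟩, b⟩
            rintro rfl
            exact h1 b
          · rintro ⟨⟨_, a⟩, b⟩
            exact ⟨a, b⟩
        · intro y
          rw [Finset.mem_erase, Finset.mem_erase, hR y]
          tauto
        · intro y hy
          exact hRx y (Finset.mem_erase.mp hy).2
        · intro r hr t ht
          exact hRT r (Finset.mem_erase.mp hr).2 t ht

theorem enc_min {S : Finset α} {f : F} (h : Enc col S f) : ∀ x₀ ∈ S, (∀ y ∈ S, ¬ y < x₀) →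
    ∃ f', Root (col x₀) f f' ∧ Enc col (S.erase x₀) f' := by
  induction h with
  | nil => intro x₀ hx₀; simp at hx₀
  | node S T R x ch rest hx hT hR hRx hRT eT eR ihT ihR =>
    intro x₀ hx₀ hmin
    by_cases h0 : x₀ = x
    · subst h0
      refine ⟨ch.app rest, Root.here ch rest, ?_⟩
      have : S.erase x₀ = T ∪ R := by
        ext y
        rw [Finset.mem_erase, Finset.mem_union, hR y, hT y]
        constructor
        · rintro ⟨a, b⟩
          by_cases c : x₀ < y
          · exact Or.inl ⟨b, c⟩
          · exact Or.inr ⟨b, a, c⟩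
        · rintro (⟨a, b⟩ | ⟨a, b, _⟩)
          · exact ⟨b.ne', a⟩
          · exact ⟨b, a⟩
      rw [this]
      exact enc_app eT eR hRT (fun r hr hr' => ((hR r).mp hr).2.2 ((hT r).mp hr').2)
    · have h1 : ¬ x < x₀ := hmin x hx
      obtain ⟨rest', l, e⟩ := ihR x₀ ((hR x₀).mpr ⟨hx₀, h0, h1⟩)
        (fun y hy => hmin y ((hR y).mp hy).1)
      refine ⟨node (col x) ch rest', Root.next _ _ _ _ l, ?_⟩
      refine Enc.node (S.erase x₀) T (R.erase x₀) x ch rest'
        (Finset.mem_erase.mpr ⟨fun h => h0 h.symm, hx⟩) ?_ ?_ ?_ ?_ eT e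
      · intro y
        rw [Finset.mem_erase, hT y]
        constructor
        · rintro ⟨a, b⟩
          refine ⟨⟨?_, a⟩, b⟩
          rintro rfl
          exact h1 b
        · rintro ⟨⟨_, a⟩, b⟩
          exact ⟨a, b⟩
      · intro y
        rw [Finset.mem_erase, Finset.mem_erase, hR y]
        tauto
      · intro y hy
        exact hRx y (Finset.mem_erase.mp hy).2
      · intro r hr t ht
        exact hRT r (Finset.mem_erase.mp hr).2 t ht

theorem main : EncMoveStm := by
  intro α _ _ col S f hE p S' hM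
  obtain ⟨x, hx, hc, hmm, hS'⟩ := hM
  subst hc
  subst hS'
  rcases hmm with h | h
  · obtain ⟨f', l, e⟩ := enc_max hE x hx h
    exact ⟨f', Or.inl l, e⟩
  · obtain ⟨f', l, e⟩ := enc_min hE x hx h
    exact ⟨f', Or.inr l, e⟩

end MMR.E2
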