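import Pool.Agent.R666.MM.Stms

namespace MMR.E3

open MMR MMR.F Classical

variable {α : Type} [PartialOrder α]

lemma enc_nil {col : α → Bool} {S : Finset α} (h : Enc col S nil) : S = ∅ := by
  cases h
  rfl

lemma enc_app {col : α → Bool} {T : Finset α} {g : F} (hg : Enc col T g) (R : Finset α) (h : F)
    (hh : Enc col R h) (hd : ∀ t ∈ T, ∀ r ∈ R, t ≠ r ∧ ¬ t < r ∧ ¬ r < t) :
    Enc col (T ∪ R) (g.app h) := by
  induction hg with
  | nil => simpa [F.app] using hh
  | node S T1 R1 x ch rest hx hT hR hRx hRT hE1 hE2 ih1 ih2 =>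
    have hsub : ∀ y ∈ R1, y ∈ S := fun y hy => ((hR y).1 hy).1
    refine Enc.node (S ∪ R) T1 (R1 ∪ R) x ch (rest.app h) (Finset.mem_union_left _ hx) ?_ ?_ ?_ ?_
      hE1 (ih2 (fun t ht r hr => hd t (hsub t ht) r hr))
    · intro y
      rw [hT, Finset.mem_union]
      constructor
      · rintro ⟨h1, h2⟩; exact ⟨Or.inl h1, h2⟩
      · rintro ⟨h1 | h1, h2⟩
        · exact ⟨h1, h2⟩
        · exact absurd h2 (hd x hx y h1).2.1
    · intro y
      rw [Finset.mem_union, hR, Finset.mem_union]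
      constructor
      · rintro (⟨h1, h2, h3⟩ | h1)
        · exact ⟨Or.inl h1, h2, h3⟩
        · exact ⟨Or.inr h1, fun e => (hd x hx y h1).1 e.symm, (hd x hx y h1).2.1⟩
      · rintro ⟨h1 | h1, h2, h3⟩
        · exact Or.inl ⟨h1, h2, h3⟩
        · exact Or.inr h1
    · intro y hy
      rcases Finset.mem_union.1 hy with h1 | h1
      · exact hRx y h1
      · exact (hd x hx y h1).2.2
    · intro r hr t ht
      rcases Finset.mem_union.1 hr with h1 | h1
      · exact hRT r h1 t ht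
      · have h2 := hd t ((hT t).1 ht).1 r h1
        exact ⟨h2.2.2, h2.2.1⟩

lemma node_next {col : α → Bool} {S T R : Finset α} {x x0 : α} {ch rest' : F}
    (hx : x ∈ S) (hT : ∀ y, y ∈ T ↔ y ∈ S ∧ x < y)
    (hR : ∀ y, y ∈ R ↔ y ∈ S ∧ y ≠ x ∧ ¬ x < y) (hRx : ∀ y ∈ R, ¬ y < x)
    (hRT : ∀ r ∈ R, ∀ t ∈ T, ¬ r < t ∧ ¬ t < r) (hE1 : Enc col T ch)
    (h0 : x0 ∈ R) (hE2 : Enc col (R.erase x0) rest') :
    Enc col (S.erase x0) (node (col x) ch rest') := by
  have h1 := (hR x0).1 h0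
  refine Enc.node (S.erase x0) T (R.erase x0) x ch rest' ?_ ?_ ?_ ?_ ?_ hE1 hE2
  · exact Finset.mem_erase.2 ⟨fun e => h1.2.1 e.symm, hx⟩
  · intro y
    rw [hT, Finset.mem_erase]
    constructor
    · rintro ⟨h2, h3⟩
      exact ⟨⟨fun e => h1.2.2 (e ▸ h3), h2⟩, h3⟩
    · rintro ⟨⟨_, h2⟩, h3⟩; exact ⟨h2, h3⟩
  · intro y
    rw [Finset.mem_erase, Finset.mem_erase, hR]
    tauto
  · intro y hy
    exact hRx y (Finset.mem_of_mem_erase hy)
  · intro r hr t ht
    exact hRT r (Finset.mem_of_mem_erase hr) t ht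

lemma leaf {col : α → Bool} {S : Finset α} {f : F} (hE : Enc col S f) (p : Bool) :
    ∀ f', Leaf p f f' → ∃ x ∈ S, col x = p ∧ (∀ y ∈ S, ¬ x < y) ∧ Enc col (S.erase x) f' := by
  induction hE with
  | nil => intro f' h; cases h
  | node S T R x ch rest hx hT hR hRx hRT hE1 hE2 ih1 ih2 =>
    intro f' h
    cases h with
    | here _ =>
      have hT0 := enc_nil hE1
      refine ⟨x, hx, rfl, ?_, ?_⟩
      · intro y hy hxy
        have := (hT y).2 ⟨hy, hxy⟩
        rw [hT0] at this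
        exact absurd this (Finset.notMem_empty _)
      · have hSR : S.erase x = R := by
          ext y
          rw [Finset.mem_erase, hR]
          constructor
          · rintro ⟨h1, h2⟩
            refine ⟨h2, h1, ?_⟩
            intro h3
            have := (hT y).2 ⟨h2, h3⟩
            rw [hT0] at this
            exact absurd this (Finset.notMem_empty _)
          · rintro ⟨h1, h2, _⟩; exact ⟨h2, h1⟩
        rw [hSR]
        exact hE2
    | down _ _ ch' _ hl =>
      obtain ⟨x0, h0, hc, hmax, hE⟩ := ih1 ch' hl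
      have h1 := (hT x0).1 h0
      refine ⟨x0, h1.1, hc, ?_, ?_⟩
      · intro y hy hxy
        exact hmax y ((hT y).2 ⟨hy, h1.2.trans hxy⟩) hxy
      · refine Enc.node (S.erase x0) (T.erase x0) R x ch' rest ?_ ?_ ?_ hRx ?_ hE hE2
        · exact Finset.mem_erase.2 ⟨h1.2.ne, hx⟩
        · intro y
          rw [Finset.mem_erase, Finset.mem_erase, hT]
          tauto
        · intro y
          rw [hR, Finset.mem_erase]
          constructor
          · rintro ⟨h2, h3, h4⟩
            exact ⟨⟨fun e => h4 (e ▸ h1.2), h2⟩, h3, h4⟩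
          · rintro ⟨⟨_, h2⟩, h3, h4⟩; exact ⟨h2, h3, h4⟩
        · intro r hr t ht
          exact hRT r hr t (Finset.mem_of_mem_erase ht)
    | next _ _ _ rest' hl =>
      obtain ⟨x0, h0, hc, hmax, hE⟩ := ih2 rest' hl
      have h1 := (hR x0).1 h0
      refine ⟨x0, h1.1, hc, ?_, node_next hx hT hR hRx hRT hE1 h0 hE⟩
      intro y hy hxy
      by_cases e : y = x
      · exact hRx x0 h0 (e ▸ hxy)
      · by_cases h2 : x < y
        · exact (hRT x0 h0 y ((hT y).2 ⟨hy, h2⟩)).1 hxy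
        · exact hmax y ((hR y).2 ⟨hy, e, h2⟩) hxy

lemma root {col : α → Bool} {S : Finset α} {f : F} (hE : Enc col S f) (p : Bool) :
    ∀ f', Root p f f' → ∃ x ∈ S, col x = p ∧ (∀ y ∈ S, ¬ y < x) ∧ Enc col (S.erase x) f' := by
  induction hE with
  | nil => intro f' h; cases h
  | node S T R x ch rest hx hT hR hRx hRT hE1 hE2 ih1 ih2 =>
    intro f' h
    cases h with
    | here _ _ =>
      refine ⟨x, hx, rfl, ?_, ?_⟩
      · intro y hy hyx
        exact hRx y ((hR y).2 ⟨hy, hyx.ne, hyx.not_gt⟩) hyx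
      · have hSR : S.erase x = T ∪ R := by
          ext y
          rw [Finset.mem_erase, Finset.mem_union, hT, hR]
          constructor
          · rintro ⟨h1, h2⟩
            by_cases h3 : x < y
            · exact Or.inl ⟨h2, h3⟩
            · exact Or.inr ⟨h2, h1, h3⟩
          · rintro (⟨h1, h2⟩ | ⟨h1, h2, _⟩)
            · exact ⟨h2.ne', h1⟩
            · exact ⟨h2, h1⟩
        rw [hSR]
        refine enc_app hE1 R rest hE2 ?_
        intro t ht r hr
        refine ⟨?_, (hRT r hr t ht).2, (hRT r hr t ht).1⟩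
        rintro rfl
        exact ((hR t).1 hr).2.2 ((hT t).1 ht).2
    | next _ _ _ rest' hl =>
      obtain ⟨x0, h0, hc, hmin, hE⟩ := ih2 rest' hl
      have h1 := (hR x0).1 h0
      refine ⟨x0, h1.1, hc, ?_, node_next hx hT hR hRx hRT hE1 h0 hE⟩
      intro y hy hxy
      by_cases e : y = x
      · exact h1.2.2 (e ▸ hxy)
      · by_cases h2 : x < y
        · exact (hRT x0 h0 y ((hT y).2 ⟨hy, h2⟩)).2 hxy
        · exact hmin y ((hR y).2 ⟨hy, e, h2⟩) hxy

theorem main : MoveEncStm := by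
  intro α _ _ col S f hE p f' hM
  rcases hM with h | h
  · obtain ⟨x, hx, hc, hm, hE'⟩ := leaf hE p f' h
    exact ⟨S.erase x, ⟨x, hx, hc, Or.inl hm, rfl⟩, hE'⟩
  · obtain ⟨x, hx, hc, hm, hE'⟩ := root hE p f' h
    exact ⟨S.erase x, ⟨x, hx, hc, Or.inr hm, rfl⟩, hE'⟩

end MMR.E3
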