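import Pool.Agent.R666.MM.Stms

/-!
# Piece E4 of project MM: winning strategies are transferred by bisimulations
-/

namespace MMR.E4

open MMR

/-- A move in the sum with free moves is transferred along a simulation. -/
theorem plus_tr {G H : Type} {mv : Bool → G → G → Prop} {mv' : Bool → H → H → Prop}
    {R : G → H → Prop}
    (h1 : ∀ g h, R g h → ∀ p g', mv p g g' → ∃ h', mv' p h h' ∧ R g' h')
    (p : Bool) (X Y : G × ℕ × ℕ) (X' : H × ℕ × ℕ) (hR : R X.1 X'.1) (h2 : X.2 = X'.2)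
    (hm : Plus mv p X Y) : ∃ Y' : H × ℕ × ℕ, Plus mv' p X' Y' ∧ R Y.1 Y'.1 ∧ Y.2 = Y'.2 := by
  obtain ⟨x, a, b⟩ := X
  obtain ⟨x', a', b'⟩ := X'
  obtain ⟨y, c, d⟩ := Y
  simp only [Prod.mk.injEq] at h2
  obtain ⟨rfl, rfl⟩ := h2
  rcases hm with ⟨hm, e1, e2⟩ | ⟨hp, e0, e1, e2⟩ | ⟨hp, e0, e1, e2⟩
  · obtain ⟨y', hy, hr⟩ := h1 x x' hR p y hm
    exact ⟨(y', c, d), Or.inl ⟨hy, e1, e2⟩, hr, rfl⟩
  · simp only at e0
    subst e0
    exact ⟨(x', c, d), Or.inr (Or.inl ⟨hp, rfl, e1, e2⟩), hR, rfl⟩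
  · simp only at e0
    subst e0
    exact ⟨(x', c, d), Or.inr (Or.inr ⟨hp, rfl, e1, e2⟩), hR, rfl⟩

/-- One direction. -/
theorem one {G H : Type} {mv : Bool → G → G → Prop} {mv' : Bool → H → H → Prop}
    {R : G → H → Prop}
    (h1 : ∀ g h, R g h → ∀ p g', mv p g g' → ∃ h', mv' p h h' ∧ R g' h')
    (h2 : ∀ g h, R g h → ∀ p h', mv' p h h' → ∃ g', mv p g g' ∧ R g' h')
    (p : Bool) (X : G × ℕ × ℕ) (hw : Wins (Plus mv) p X) :
    ∀ X' : H × ℕ × ℕ, R X.1 X'.1 → X.2 = X'.2 → Wins (Plus mv') p X' := by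
  induction hw with
  | mk x y hxy _ ih =>
    intro X' hR he
    obtain ⟨Y', hm', hR', he'⟩ := plus_tr h1 p x y X' hR he hxy
    refine Wins.mk p X' Y' hm' ?_
    intro Z' hZ'
    obtain ⟨Z, hm, hRz, hez⟩ := plus_tr (R := fun h g => R g h)
      (fun h g hr p h' hh => h2 g h hr p h' hh) (!p) Y' Z' y hR' he'.symm hZ'
    exact ih Z hm Z' hRz hez.symm

theorem main : BisimStm := by
  intro G H mv mv' R h1 h2 g h hR a b p
  constructor
  · intro hw
    exact one h1 h2 p _ hw (h, a, b) hR rfl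
  · intro hw
    exact one (R := fun h g => R g h) (fun h g hr p h' hh => h2 g h hr p h' hh)
      (fun h g hr p h' hh => h1 g h hr p h' hh) p _ hw (g, a, b) hR rfl

end MMR.E4
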