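import Pool.Agent.R666.MM.Stms

/-! Piece E5: the formula in the encoding. -/

namespace MMR.E5

open MMR MMR.F Classical

variable {α : Type} [PartialOrder α]

/-- minimal elements -/
noncomputable def Mn (S : Finset α) : Finset α := S.filter (fun m => ∀ y ∈ S, ¬ y < m)

theorem mem_Mn {S : Finset α} {m : α} : m ∈ Mn S ↔ m ∈ S ∧ ∀ y ∈ S, ¬ y < m := by
  unfold Mn
  rw [Finset.mem_filter]

/-- upper sets -/
def Up (S : Finset α) : Prop := ∀ x ∈ S, ∀ y, x ≤ y → y ∈ S

/-- the data of a node -/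
structure Nd (S T R : Finset α) (x : α) : Prop where
  up : Up S
  hx : x ∈ S
  hT : ∀ y, y ∈ T ↔ y ∈ S ∧ x < y
  hR : ∀ y, y ∈ R ↔ y ∈ S ∧ y ≠ x ∧ ¬ x < y
  h1 : ∀ y ∈ R, ¬ y < x
  h2 : ∀ r ∈ R, ∀ t ∈ T, ¬ r < t ∧ ¬ t < r

namespace Nd

variable {S T R : Finset α} {x : α} (h : Nd S T R x)

include h

theorem mT (y : α) : y ∈ T ↔ x < y := by
  rw [h.hT]
  exact ⟨fun h' => h'.2, fun h' => ⟨h.up x h.hx y h'.le, h'⟩⟩

theorem upT : Up T := by
  intro y hy z hz
  rw [h.mT] at hy ⊢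
  exact hy.trans_le hz

theorem upR : Up R := by
  intro y hy z hz
  have hy' := (h.hR y).1 hy
  rw [h.hR]
  refine ⟨h.up y hy'.1 z hz, ?_, ?_⟩
  · rintro rfl
    rcases hz.lt_or_eq with h3 | h3
    · exact h.h1 y hy h3
    · exact hy'.2.1 h3
  · intro h3
    rcases hz.lt_or_eq with h4 | h4
    · exact (h.h2 y hy z ((h.mT z).2 h3)).1 h4
    · rw [← h4] at h3
      exact hy'.2.2 h3

theorem cases {y : α} (hy : y ∈ S) : y = x ∨ y ∈ T ∨ y ∈ R := by
  by_cases h1 : y = x
  · exact Or.inl h1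
  by_cases h2 : x < y
  · exact Or.inr (Or.inl ((h.mT y).2 h2))
  · exact Or.inr (Or.inr ((h.hR y).2 ⟨hy, h1, h2⟩))

theorem xT : x ∉ T := fun h' => lt_irrefl _ ((h.mT x).1 h')

theorem xR : x ∉ R := fun h' => ((h.hR x).1 h').2.1 rfl

theorem dis : Disjoint T R := by
  rw [Finset.disjoint_left]
  intro y hy hy'
  exact ((h.hR y).1 hy').2.2 ((h.mT y).1 hy)

theorem S_eq : S = insert x (T ∪ R) := by
  ext y
  rw [Finset.mem_insert, Finset.mem_union]
  constructor
  · exact fun hy => h.cases hy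
  · rintro (rfl | hy | hy)
    · exact h.hx
    · exact ((h.hT y).1 hy).1
    · exact ((h.hR y).1 hy).1

theorem Mn_eq : Mn S = insert x (Mn R) := by
  ext y
  rw [Finset.mem_insert, mem_Mn, mem_Mn]
  constructor
  · rintro ⟨hy, hm⟩
    rcases h.cases hy with h3 | h3 | h3
    · exact Or.inl h3
    · exact absurd ((h.mT y).1 h3) (hm x h.hx)
    · exact Or.inr ⟨h3, fun z hz => hm z ((h.hR z).1 hz).1⟩
  · rintro (rfl | ⟨hy, hm⟩)
    · refine ⟨h.hx, fun z hz hzy => ?_⟩
      rcases h.cases hz with h3 | h3 | h3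
      · rw [h3] at hzy
        exact lt_irrefl _ hzy
      · exact lt_asymm hzy ((h.mT z).1 h3)
      · exact h.h1 z h3 hzy
    · refine ⟨((h.hR y).1 hy).1, fun z hz hzy => ?_⟩
      rcases h.cases hz with h3 | h3 | h3
      · rw [h3] at hzy
        exact ((h.hR y).1 hy).2.2 hzy
      · exact (h.h2 y hy z h3).2 hzy
      · exact hm z h3 hzy

theorem xMn : x ∉ Mn R := fun h' => h.xR (mem_Mn.1 h').1

theorem cov (y : α) : x ⋖ y ↔ y ∈ Mn T := by
  rw [mem_Mn, h.mT]
  constructor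
  · rintro ⟨h3, h4⟩
    exact ⟨h3, fun z hz => h4 ((h.mT z).1 hz)⟩
  · rintro ⟨h3, h4⟩
    exact ⟨h3, fun z hz => h4 z ((h.mT z).2 hz)⟩

end Nd

theorem facts [Fintype α] {col : α → Bool} {δ : α → ℤ} (hδ : IsDelta col δ) {S : Finset α} {f : F}
    (henc : Enc col S f) : Up S →
    (∀ c, f.allR c = true ↔ ∀ m ∈ Mn S, col m = c) ∧
    (∀ c, f.okB c = true ↔ ∀ m ∈ Mn S, col m = c → ∀ y, m ⋖ y → col y = c) ∧
    (f.free = true ↔ ∀ y ∈ S, Ess col y) ∧
    f.top = ∑ y ∈ S.filter (fun y => Ess col y), sg (col y) ∧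
    f.bot = ∑ m ∈ Mn S, δ m := by
  induction henc with
  | nil =>
    intro _
    refine ⟨fun c => ?_, fun c => ?_, ?_, ?_, ?_⟩
    · simp [F.allR, Mn]
    · simp [F.okB, Mn]
    · simp [F.free]
    · simp [F.top]
    · simp [F.bot, Mn]
  | node S T R x ch rest hx hT hR h1 h2 hch hrest ihT ihR =>
    intro hup
    have nd : Nd S T R x := ⟨hup, hx, hT, hR, h1, h2⟩
    obtain ⟨a1, a2, a3, a4, a5⟩ := ihT nd.upT
    obtain ⟨b1, b2, b3, b4, b5⟩ := ihR nd.upR
    have hess : (ch.free && ch.okB (col x)) = true ↔ Ess col x := by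
      rw [Bool.and_eq_true, a3, a2]
      constructor
      · rintro ⟨h3, h4⟩ x' y z hxx' hx'y hyz ⟨h5, h6⟩
        rcases hxx'.lt_or_eq with h7 | h7
        · exact h3 x' ((nd.mT x').2 h7) x' y z le_rfl hx'y hyz ⟨h5, h6⟩
        · subst h7
          exact h6 (h4 y ((nd.cov y).1 hx'y) h5.symm z hyz)
      · intro he
        refine ⟨fun y hy x' y' z' h3 => he x' y' z' (((nd.mT y).1 hy).le.trans h3), ?_⟩
        intro m hm hcm z hmz
        by_contra h3
        exact he x m z le_rfl ((nd.cov m).2 hm) hmz ⟨hcm.symm, h3⟩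
    have hsum : ∀ v : α → ℤ, ∑ y with x ⋖ y, v y = ∑ m ∈ Mn T, v m := by
      intro v
      refine Finset.sum_congr ?_ fun _ _ => rfl
      ext y
      rw [Finset.mem_filter, ← nd.cov]
      exact ⟨fun h => h.2, fun h => ⟨Finset.mem_univ _, h⟩⟩
    refine ⟨fun c => ?_, fun c => ?_, ?_, ?_, ?_⟩
    · rw [F.allR, Bool.and_eq_true, b1, nd.Mn_eq, Finset.forall_mem_insert, beq_iff_eq]
    · rw [F.okB, Bool.and_eq_true, b2, nd.Mn_eq, Finset.forall_mem_insert, Bool.or_eq_true, a1,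
        bne_iff_ne, ← imp_iff_not_or]
      simp only [nd.cov]
    · have h3 : (ch.free && ch.okB (col x) && rest.free) = true ↔
          Ess col x ∧ ∀ y ∈ R, Ess col y := by
        rw [Bool.and_eq_true, hess, b3]
      rw [F.free, h3]
      constructor
      · rintro ⟨h4, h5⟩ y hy
        rcases nd.cases hy with h6 | h6 | h6
        · rw [h6]
          exact h4
        · exact fun x' y' z' h7 => h4 x' y' z' (((nd.mT y).1 h6).le.trans h7)
        · exact h5 y h6
      · intro h4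
        exact ⟨h4 x hx, fun y hy => h4 y ((nd.hR y).1 hy).1⟩
    · rw [F.top, a4, b4, nd.S_eq, Finset.sum_filter, Finset.sum_filter, Finset.sum_filter,
        Finset.sum_insert (by rw [Finset.mem_union]; exact not_or.2 ⟨nd.xT, nd.xR⟩),
        Finset.sum_union nd.dis]
      have h3 : (if (ch.free && ch.okB (col x)) = true then sg (col x) else 0) =
          if Ess col x then sg (col x) else 0 := by
        by_cases h4 : Ess col x
        · rw [if_pos h4, if_pos (hess.2 h4)]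
        · rw [if_neg h4, if_neg (fun h => h4 (hess.1 h))]
      rw [h3]
      ring
    · rw [nd.Mn_eq, Finset.sum_insert nd.xMn, ← b5]
      have h3 := hδ x
      rw [hsum, ← a5] at h3
      rw [h3]
      cases hc : col x with
      | true =>
        rw [hc] at hess
        rw [F.bot, if_pos rfl]
        by_cases h4 : Ess col x
        · rw [if_pos h4, if_pos (hess.2 h4)]
        · rw [if_neg h4, if_neg (fun h => h4 (hess.1 h))]
      | false =>
        rw [hc] at hess
        rw [F.bot, if_neg Bool.false_ne_true]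
        by_cases h4 : Ess col x
        · rw [if_pos h4, if_pos (hess.2 h4)]
        · rw [if_neg h4, if_neg (fun h => h4 (hess.1 h))]

theorem main : FormulaStm := by
  intro α _ _ col δ hδ f hf
  obtain ⟨-, -, -, h4, h5⟩ := facts hδ hf (fun _ _ _ _ => Finset.mem_univ _)
  rw [h4, h5]
  unfold formula
  congr 1
  refine Finset.sum_congr ?_ fun _ _ => rfl
  ext m
  rw [Finset.mem_filter, mem_Mn]
  exact ⟨fun h => ⟨Finset.mem_univ _, fun y _ => h.2 y⟩,
    fun h => ⟨Finset.mem_univ _, fun y => h.2 y (Finset.mem_univ _)⟩⟩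

end MMR.E5
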