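import Pool.Agent.R666.MM.Stms

/-! Piece E6: `δ` exists. -/

namespace MMR.E6

open MMR Classical

theorem main : DeltaStm := by
  intro α _ _ col
  let F : ∀ x : α, (∀ y : α, x < y → ℤ) → ℤ := fun x rec =>
    if Ess col x then 0 else
    if col x = true then max 0 (1 + ∑ y with x ⋖ y, if h : x < y then rec y h else 0)
    else min 0 (-1 + ∑ y with x ⋖ y, if h : x < y then rec y h else 0)
  have wf : WellFounded (fun y x : α => x < y) := wellFounded_gt
  let δ : α → ℤ := wf.fix (C := fun _ => ℤ) F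
  refine ⟨δ, fun x => ?_⟩
  have h1 : δ x = F x (fun y _ => δ y) := wf.fix_eq (C := fun _ => ℤ) F x
  have h2 : (∑ y with x ⋖ y, if h : x < y then δ y else 0) = ∑ y with x ⋖ y, δ y := by
    refine Finset.sum_congr rfl (fun y hy => ?_)
    rw [Finset.mem_filter] at hy
    rw [dif_pos hy.2.lt]
  rw [h1]
  simp only [F]
  rw [h2]

end MMR.E6
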