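import Pool.Agent.R666.MM.Stms

/-! Piece M1: basic facts. -/

namespace MMR.M1

open MMR MMR.F Classical

theorem free_facts : ∀ f : F, f.free = true → f.val = f.S ∧ f.top = f.S ∧ f.bot = 0 := by
  intro f
  induction f with
  | nil => intro _; exact ⟨rfl, rfl, rfl⟩
  | node c ch rest ih1 ih2 =>
    intro h
    simp only [F.free, Bool.and_eq_true] at h
    obtain ⟨⟨h1, h2⟩, h3⟩ := h
    obtain ⟨a1, a2, a3⟩ := ih1 h1
    obtain ⟨b1, b2, b3⟩ := ih2 h3
    cases c
    · simp only [F.val, F.top, F.bot, F.S, sg, h1, h2, Bool.and_self, if_true, a1, a2, b1, b2, b3]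
      refine ⟨?_, ?_, ?_⟩
      · have : min (ch.S + -1) (-1 + ch.S) = -1 + ch.S := by omega
        rw [this]
        simp
      · simp
        ring
      · simp
    · simp only [F.val, F.top, F.bot, F.S, sg, h1, h2, Bool.and_self, if_true, a1, a2, b1, b2, b3]
      refine ⟨?_, ?_, ?_⟩
      · have : max (ch.S + 1) (1 + ch.S) = 1 + ch.S := by omega
        rw [this]
      · ring
      · simp

theorem val_eq : ∀ f : F, f.val = f.top + f.bot := by
  intro f
  induction f with
  | nil => rfl
  | node c ch rest ih1 ih2 =>
    by_cases h : (ch.free && ch.okB c) = true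
    · have hf : ch.free = true := by
        rw [Bool.and_eq_true] at h
        exact h.1
      obtain ⟨a1, a2, a3⟩ := free_facts ch hf
      cases c
      · simp only [F.val, F.top, F.bot, h, if_true, ih2, a1, a2, sg]
        simp
        omega
      · simp only [F.val, F.top, F.bot, h, if_true, ih2, a1, a2, sg]
        omega
    · cases c
      · simp only [F.val, F.top, F.bot, h, ih2, ih1]
        simp
        omega
      · simp only [F.val, F.top, F.bot, h, ih2, ih1]
        simp
        omega

theorem val_app : ∀ f g : F, (f.app g).val = f.val + g.val := by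
  intro f g
  induction f with
  | nil => simp [F.app, F.val]
  | node c ch rest ih1 ih2 =>
    cases c
    · simp only [F.app, F.val, ih2]
      ring
    · simp only [F.app, F.val, ih2]
      ring

theorem leaf_S : ∀ p f f', Leaf p f f' → f'.S = f.S - sg p := by
  intro p f f' h
  induction h with
  | here rest => simp [F.S]
  | down c ch ch' rest _ ih =>
    simp only [F.S, ih]
    ring
  | next c ch rest rest' _ ih =>
    simp only [F.S, ih]
    ring

theorem leaf_allR : ∀ p c f f', Leaf p f f' → f.allR c = true → f'.allR c = true := by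
  intro p c f f' h
  induction h with
  | here rest =>
    intro h
    simp only [F.allR, Bool.and_eq_true] at h
    exact h.2
  | down d ch ch' rest _ ih =>
    intro h
    simp only [F.allR, Bool.and_eq_true] at h ⊢
    exact h
  | next d ch rest rest' _ ih =>
    intro h
    simp only [F.allR, Bool.and_eq_true] at h ⊢
    exact ⟨h.1, ih h.2⟩

theorem leaf_allR_eq : ∀ p f f', Leaf p f f' → f'.allR p = f.allR p := by
  intro p f f' h
  induction h with
  | here rest => simp [F.allR]
  | down d ch ch' rest _ ih => simp [F.allR]
  | next d ch rest rest' _ ih => simp [F.allR, ih]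

theorem leaf_okB : ∀ p c f f', Leaf p f f' → f.okB c = true → f'.okB c = true := by
  intro p c f f' h
  induction h with
  | here rest =>
    intro h
    simp only [F.okB, Bool.and_eq_true] at h
    exact h.2
  | down d ch ch' rest hl ih =>
    intro h
    simp only [F.okB, Bool.and_eq_true, Bool.or_eq_true] at h ⊢
    refine ⟨?_, h.2⟩
    rcases h.1 with h1 | h1
    · exact Or.inl h1
    · exact Or.inr (leaf_allR p c ch ch' hl h1)
  | next d ch rest rest' _ ih =>
    intro h
    simp only [F.okB, Bool.and_eq_true] at h ⊢
    exact ⟨h.1, ih h.2⟩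

theorem leaf_okB_eq : ∀ p f f', Leaf p f f' → f'.okB p = f.okB p := by
  intro p f f' h
  induction h with
  | here rest => simp [F.okB, F.allR]
  | down d ch ch' rest hl ih => simp [F.okB, leaf_allR_eq _ _ _ hl]
  | next d ch rest rest' _ ih => simp [F.okB, ih]

theorem leaf_free : ∀ p f f', Leaf p f f' → f.free = true → f'.free = true := by
  intro p f f' h
  induction h with
  | here rest =>
    intro h
    simp only [F.free, Bool.and_eq_true] at h
    exact h.2
  | down d ch ch' rest hl ih =>
    intro h
    simp only [F.free, Bool.and_eq_true] at h ⊢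
    exact ⟨⟨ih h.1.1, leaf_okB _ _ _ _ hl h.1.2⟩, h.2⟩
  | next d ch rest rest' _ ih =>
    intro h
    simp only [F.free, Bool.and_eq_true] at h ⊢
    exact ⟨h.1, ih h.2⟩

theorem main : BasicStm :=
  ⟨free_facts, val_eq, val_app, leaf_S, leaf_free, leaf_allR, leaf_allR_eq, leaf_okB, leaf_okB_eq⟩

end MMR.M1
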