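import Pool.Agent.R666.MM.Stms

namespace MMR.M2

open MMR MMR.F

theorem main : BasicStm → KeyStm := by
  rintro ⟨b1, b2, b3, b4, b5, b6, b7, b8, b9⟩ g g' h
  induction h with
  | here rest =>
    intro h1 h2
    simp [F.free, F.okB, h2] at h1
  | next c ch rest rest' h ih =>
    intro h1 h2
    simp only [F.free, Bool.and_eq_true] at h2
    obtain ⟨⟨h3, h4⟩, h5⟩ := h2
    have h6 : rest.free = false := by
      simpa [F.free, h3, h4] using h1
    obtain ⟨h7, h8, _⟩ := b1 ch h3
    have hih := ih h6 h5
    cases c with
    | true =>
      simp only [F.top, F.S, F.val, F.allR, F.okB, sg, h3, h4, h7, h8, Bool.and_self, if_true]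
      rcases hih with ⟨k1, k2, k3⟩ | ⟨k1, k2, k3⟩
      · left
        refine ⟨by omega, fun h => ?_, by simp [k3]⟩
        have := k2 (by omega)
        rw [this]
        omega
      · right
        refine ⟨by omega, fun h => ?_, by simp [k3]⟩
        have := k2 (by omega)
        rw [this]
        omega
    | false =>
      simp only [F.top, F.S, F.val, F.allR, F.okB, sg, h3, h4, h7, h8, Bool.and_self, if_true,
        Bool.false_eq_true, if_false]
      rcases hih with ⟨k1, k2, k3⟩ | ⟨k1, k2, k3⟩
      · left
        refine ⟨by omega, fun h => ?_, by simp⟩
        have := k2 (by omega)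
        rw [this]
        omega
      · right
        refine ⟨by omega, fun h => ?_, by simp [k3]⟩
        have := k2 (by omega)
        rw [this]
        omega
  | down c ch ch' rest h ih =>
    intro h1 h2
    simp only [F.free, Bool.and_eq_true] at h2
    obtain ⟨⟨h3, h4⟩, h5⟩ := h2
    have h6 : (ch.free && ch.okB c) = false := by
      cases hc : (ch.free && ch.okB c) with
      | false => rfl
      | true =>
        simp [F.free, hc, h5] at h1
    obtain ⟨h7, h8, _⟩ := b1 rest h5
    cases hf : ch.free with
    | true =>
      obtain ⟨h9, h10, _⟩ := b1 ch hf
      have h11 : ch.okB c = false := by simpa [hf] using h6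
      cases c with
      | true =>
        exfalso
        have := b9 true ch ch' h
        rw [h4, h11] at this
        exact absurd this (by simp)
      | false =>
        left
        simp only [F.top, F.S, F.val, F.allR, sg, h6, h7, h8, h9, h10,
          Bool.false_eq_true, if_false]
        refine ⟨by omega, fun _ => by omega, by simp⟩
    | false =>
      have hih := ih hf h3
      cases c with
      | true =>
        simp only [F.top, F.S, F.val, F.allR, F.okB, sg, h6, h7, h8,
          Bool.false_eq_true, if_false, if_true]
        rcases hih with ⟨k1, k2, k3⟩ | ⟨k1, k2, k3⟩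
        · right
          refine ⟨by omega, fun h => ?_, by simp [k3]⟩
          have := k2 (by omega)
          rw [this]
          omega
        · exfalso
          rw [h4] at k3
          exact absurd k3 (by simp)
      | false =>
        simp only [F.top, F.S, F.val, F.allR, F.okB, sg, h6, h7, h8,
          Bool.false_eq_true, if_false]
        rcases hih with ⟨k1, k2, k3⟩ | ⟨k1, k2, k3⟩
        · left
          refine ⟨by omega, fun h => ?_, by simp⟩
          omega
        · left
          refine ⟨by omega, fun h => ?_, by simp⟩
          have := k2 (by omega)
          rw [this]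
          omega

end MMR.M2
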