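import Pool.Agent.R666.MM.Stms

namespace MMR.M3

open MMR MMR.F

theorem main : BasicStm → KeyStm → TopDecStm := by
  rintro ⟨b1, b2, b3, b4, b5, b6, b7, b8, b9⟩ hk f f' h
  induction h with
  | here rest =>
    simp only [F.top, F.free, F.okB, sg, Bool.and_self, if_true]
    omega
  | next c ch rest rest' h ih =>
    simp only [F.top]
    omega
  | down c ch ch' rest h ih =>
    simp only [F.top]
    cases hf : (ch.free && ch.okB c) with
    | true =>
      have hf' := hf
      rw [Bool.and_eq_true] at hf
      have h1 : (ch'.free && ch'.okB c) = true := by
        rw [Bool.and_eq_true]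
        exact ⟨b5 true ch ch' h hf.1, b8 true c ch ch' h hf.2⟩
      rw [h1]
      simp only [if_true]
      omega
    | false =>
      cases hf2 : (ch'.free && ch'.okB c) with
      | false =>
        simp only [Bool.false_eq_true, if_false]
        omega
      | true =>
        have h1 : Leaf true (node c ch nil) (node c ch' nil) := Leaf.down c ch ch' nil h
        have h2 : (node c ch nil).free = false := by simp [F.free, hf]
        have h3 : (node c ch' nil).free = true := by simp [F.free, hf2]
        have h4 := hk _ _ h1 h2 h3
        have h5 : 0 ≤ (node c ch nil).top - (node c ch nil).S := by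
          rcases h4 with ⟨k, _⟩ | ⟨k, _⟩
          · omega
          · exact k
        simp only [F.top, F.S, hf, Bool.false_eq_true, if_false] at h5
        rw [Bool.and_eq_true] at hf2
        obtain ⟨_, h6, _⟩ := b1 ch' hf2.1
        have h7 := b4 true ch ch' h
        have h8 : sg true = 1 := rfl
        simp only [Bool.false_eq_true, if_false, if_true]
        omega

end MMR.M3
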