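import Pool.Agent.R666.MM.Stms

/-!
# M4: a white top move decreases `val`
-/

namespace MMR.M4

open MMR MMR.F Classical

theorem val_node (c : Bool) (ch rest : F) :
    (node c ch rest).val = (node c ch nil).val + rest.val := by
  cases c <;> simp [F.val]

theorem top_node (c : Bool) (ch rest : F) :
    (node c ch rest).top = (node c ch nil).top + rest.top := by
  simp [F.top]

theorem main : BasicStm → KeyStm → TopDecStm → ValDecStm := by
  intro hB hK hT f f' h
  obtain ⟨hB1, hB2, hB3, hB4, hB5, hB6, hB7, hB8, hB9⟩ := hB
  induction h with
  | here rest =>
    have h1 : (node true nil rest).val = 1 + rest.val := by simp [F.val, F.top, F.free, F.okB]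
    exact ⟨by rw [h1]; omega, fun _ => by rw [h1]; omega⟩
  | next c ch rest rest' h ih =>
    rw [val_node c ch rest, val_node c ch rest', top_node c ch rest, top_node c ch rest']
    refine ⟨by have := ih.1; omega, fun h2 => ?_⟩
    have := ih.2 (by omega)
    omega
  | down c ch ch' rest h ih =>
    have hL : Leaf true (node c ch nil) (node c ch' nil) := Leaf.down c ch ch' nil h
    have hT1 := hT _ _ hL
    rw [val_node c ch rest, val_node c ch' rest, top_node c ch rest, top_node c ch' rest]
    have key : (node c ch' nil).val ≤ (node c ch nil).val - 1 ∧
        ((node c ch' nil).top = (node c ch nil).top - 1 →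
          (node c ch' nil).val = (node c ch nil).val - 1) := by
      constructor
      · have := ih.1
        cases c
        · simp only [F.val, F.top, sg] at *
          simp only [Bool.false_eq_true, if_false] at *
          omega
        · simp only [F.val, F.top, sg] at *
          simp only [if_true] at *
          omega
      · intro h2
        by_cases hf : (ch'.free && ch'.okB c) = (ch.free && ch.okB c)
        · have h3 : ch'.top = ch.top - 1 := by
            simp only [F.top, hf] at h2
            omega
          have h4 := ih.2 h3
          cases c
          · simp only [F.val, hf]
            omega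
          · simp only [F.val, hf]
            omega
        · have h5 : (node c ch nil).free = false ∧ (node c ch' nil).free = true := by
            simp only [F.free, Bool.and_true]
            have m1 : ch.free = true → ch'.free = true := hB5 _ _ _ h
            have m2 : ch.okB c = true → ch'.okB c = true := hB8 _ _ _ _ h
            revert hf m1 m2
            cases ch.free <;> cases ch'.free <;> cases ch.okB c <;> cases ch'.okB c <;> simp
          have h6 := hB1 _ h5.2
          have h7 := hB4 _ _ _ hL
          have h8 : sg true = 1 := rfl
          rcases hK _ _ hL h5.1 h5.2 with ⟨a1, a2, _⟩ | ⟨a1, a2, _⟩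
          · omega
          · have := a2 (by omega)
            omega
    refine ⟨by have := key.1; omega, fun h2 => ?_⟩
    have := key.2 (by omega)
    omega

end MMR.M4
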