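import Pool.Agent.R666.MM.Stms

/-!
# MP_488bb9_co, piece M5: good white top moves exist if `top` is positive
-/

namespace MMR.M5

open MMR MMR.F

/-- The contribution of the tree with root colour `c` and upper part `g` to `top`. -/
def tt (c : Bool) (g : F) : ℤ := g.top + if g.free && g.okB c then sg c else 0

theorem top_node (c : Bool) (g rest : F) : (F.node c g rest).top = tt c g + rest.top := rfl

theorem wl_mono : ∀ ch : F, ch.free = true → ch.okB true = true → ch.allR true = true →
    ch ≠ F.nil → ∃ ch', Leaf true ch ch' := by
  intro ch
  induction ch with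
  | nil => intro _ _ _ h; exact absurd rfl h
  | node d ch2 rest ih1 ih2 =>
    intro hf ho ha _
    simp only [F.free, F.okB, F.allR, Bool.and_eq_true, Bool.or_eq_true, beq_iff_eq,
      bne_iff_ne, ne_eq] at hf ho ha
    obtain ⟨hd, ha2⟩ := ha
    subst hd
    obtain ⟨⟨hf1, hf2⟩, hf3⟩ := hf
    have ha3 : ch2.allR true = true := by
      rcases ho.1 with h | h
      · exact absurd rfl h
      · exact h
    by_cases hn : ch2 = F.nil
    · subst hn
      exact ⟨_, Leaf.here _⟩
    · obtain ⟨ch', h'⟩ := ih1 hf1 hf2 ha3 hn
      exact ⟨_, Leaf.down _ _ _ _ h'⟩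

theorem wl : ∀ h : F, h.free = true → (¬ ∃ h', Leaf true h h') →
    h.S ≤ 0 ∧ (h.allR true = false → h.S ≤ -1) := by
  intro h
  induction h with
  | nil =>
    intro _ _
    refine ⟨le_refl _, ?_⟩
    intro h
    simp [F.allR] at h
  | node c g rest ih1 ih2 =>
    intro hf hn
    simp only [F.free, Bool.and_eq_true] at hf
    obtain ⟨⟨hf1, hf2⟩, hf3⟩ := hf
    have hn1 : ¬ ∃ g', Leaf true g g' := by
      rintro ⟨g', hg'⟩
      exact hn ⟨_, Leaf.down _ _ _ _ hg'⟩
    have hn2 : ¬ ∃ r', Leaf true rest r' := by
      rintro ⟨r', hr'⟩
      exact hn ⟨_, Leaf.next _ _ _ _ hr'⟩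
    obtain ⟨a1, a2⟩ := ih1 hf1 hn1
    obtain ⟨b1, b2⟩ := ih2 hf3 hn2
    cases c with
    | false =>
      have : (F.node false g rest).S = -1 + g.S + rest.S := by simp [F.S, sg]
      refine ⟨by omega, fun _ => by omega⟩
    | true =>
      have hS : (F.node true g rest).S = 1 + g.S + rest.S := by simp [F.S, sg]
      have hg : g.allR true = false := by
        by_contra hc
        have hc' : g.allR true = true := by simpa using hc
        by_cases hnil : g = F.nil
        · subst hnil
          exact hn ⟨_, Leaf.here _⟩
        · exact hn1 (wl_mono g hf1 hf2 hc' hnil)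
      have hg2 := a2 hg
      refine ⟨by omega, ?_⟩
      intro ha
      have : rest.allR true = false := by simpa [F.allR] using ha
      have := b2 this
      omega

theorem mb : ∀ g : F, g.free = true → g.okB false = true → g.allR false = true → g.S ≤ 0 := by
  intro g
  induction g with
  | nil => intro _ _ _; exact le_refl _
  | node d ch rest ih1 ih2 =>
    intro hf ho ha
    simp only [F.free, F.okB, F.allR, Bool.and_eq_true, Bool.or_eq_true, beq_iff_eq,
      bne_iff_ne, ne_eq] at hf ho ha
    obtain ⟨hd, ha2⟩ := ha
    subst hd
    obtain ⟨⟨hf1, hf2⟩, hf3⟩ := hf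
    have ha3 : ch.allR false = true := by
      rcases ho.1 with h | h
      · exact absurd rfl h
      · exact h
    have e1 := ih1 hf1 hf2 ha3
    have e2 := ih2 hf3 ho.2 ha2
    have : (F.node false ch rest).S = -1 + ch.S + rest.S := by simp [F.S, sg]
    omega

/-- The statement for trees. -/
def TreeP (c : Bool) (g : F) : Prop :=
  0 < tt c g → (c = true ∧ g = F.nil) ∨ ∃ g', Leaf true g g' ∧ tt c g' = tt c g - 1 ∧
    (g'.free && g'.okB c) = (g.free && g.okB c) ∧
    ((g.free && g.okB c) = true → g'.allR c = g.allR c)

/-- The statement for forests. -/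
def ForP (h : F) : Prop :=
  0 < h.top → ∃ h', Leaf true h h' ∧ h'.top = h.top - 1 ∧ h'.free = h.free ∧
    (h.free = true → ∀ e, h'.okB e = h.okB e)

theorem tree_of_for (B : BasicStm) (c : Bool) (g : F) (hB : ForP g) : TreeP c g := by
  obtain ⟨B1, -, -, B4, B5, B6, B7, B8, B9⟩ := B
  intro hpos
  by_cases hfr : (g.free && g.okB c) = true
  · have hfr' := hfr
    rw [Bool.and_eq_true] at hfr'
    obtain ⟨hf, ho⟩ := hfr'
    have ht : tt c g = g.S + sg c := by
      unfold tt
      rw [if_pos hfr, (B1 g hf).2.1]
    by_cases hw : ∃ g', Leaf true g g'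
    · right
      obtain ⟨g', hg'⟩ := hw
      have hS : g'.S = g.S - 1 := by
        have := B4 _ _ _ hg'
        simpa [sg] using this
      have hf' := B5 _ _ _ hg' hf
      have ho' := B8 _ c _ _ hg' ho
      have hfr2 : (g'.free && g'.okB c) = true := by rw [hf', ho']; rfl
      have ht' : tt c g' = g'.S + sg c := by
        unfold tt
        rw [if_pos hfr2, (B1 g' hf').2.1]
      refine ⟨g', hg', by rw [ht, ht', hS]; ring, by rw [hfr, hfr2], ?_⟩
      intro _
      cases c with
      | true => exact B7 _ _ _ hg'
      | false =>
        by_cases ha : g.allR false = true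
        · rw [ha, B6 _ _ _ _ hg' ha]
        · have ha0 : g.allR false = false := by simpa using ha
          rw [ha0]
          by_contra hc
          have hc' : g'.allR false = true := by simpa using hc
          have h1 := mb g' hf' ho' hc'
          have h2 : tt false g = g.S - 1 := by rw [ht]; simp [sg]; ring
          omega
    · left
      obtain ⟨w1, w2⟩ := wl g hf hw
      cases c with
      | false =>
        exfalso
        have h2 : tt false g = g.S - 1 := by rw [ht]; simp [sg]; ring
        omega
      | true =>
        refine ⟨rfl, ?_⟩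
        have h2 : tt true g = g.S + 1 := by rw [ht]; simp [sg]
        have ha : g.allR true = true := by
          by_contra hc
          have hc' : g.allR true = false := by simpa using hc
          have := w2 hc'
          omega
        by_contra hne
        exact hw (wl_mono g hf ho ha hne)
  · right
    have ht : tt c g = g.top := by
      unfold tt
      rw [if_neg hfr, add_zero]
    rw [ht] at hpos
    obtain ⟨g', hg', h1, h2, h3⟩ := hB hpos
    have heq : (g'.free && g'.okB c) = (g.free && g.okB c) := by
      cases hgf : g.free with
      | false => rw [h2, hgf]; rfl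
      | true => rw [h2, hgf, h3 hgf c]
    refine ⟨g', hg', ?_, heq, ?_⟩
    · have ht' : tt c g' = g'.top := by
        unfold tt
        rw [if_neg (by rw [heq]; exact hfr), add_zero]
      rw [ht, ht', h1]
    · intro h
      exact absurd h hfr

theorem forP (B : BasicStm) : ∀ h : F, ForP h := by
  intro h
  induction h with
  | nil =>
    intro h
    exact absurd h (by simp [F.top])
  | node c g rest ih1 ih2 =>
    intro hpos
    rw [top_node] at hpos
    by_cases hc : 0 < tt c g
    · rcases tree_of_for B c g ih1 hc with ⟨rfl, rfl⟩ | ⟨g', hg', h1, h2, h3⟩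
      · refine ⟨rest, Leaf.here _, ?_, ?_, ?_⟩
        · rw [top_node]
          have : tt true F.nil = 1 := by simp [tt, F.top, F.free, F.okB, sg]
          rw [this]; ring
        · simp [F.free, F.okB]
        · intro _ e
          simp [F.okB, F.allR]
      · refine ⟨F.node c g' rest, Leaf.down _ _ _ _ hg', ?_, ?_, ?_⟩
        · rw [top_node, top_node, h1]; ring
        · change (g'.free && g'.okB c && rest.free) = (g.free && g.okB c && rest.free)
          rw [h2]
        · intro hf e
          have hf' : (g.free && g.okB c) = true := by
            have : (g.free && g.okB c && rest.free) = true := hf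
            rw [Bool.and_eq_true] at this
            exact this.1
          change (((c != e) || g'.allR e) && rest.okB e) = (((c != e) || g.allR e) && rest.okB e)
          by_cases hce : c = e
          · subst hce
            rw [h3 hf']
          · have : (c != e) = true := by simpa using hce
            rw [this]; simp
    · have hr : 0 < rest.top := by omega
      obtain ⟨r', hr', h1, h2, h3⟩ := ih2 hr
      refine ⟨F.node c g r', Leaf.next _ _ _ _ hr', ?_, ?_, ?_⟩
      · rw [top_node, top_node, h1]; ring
      · change (g.free && g.okB c && r'.free) = (g.free && g.okB c && rest.free)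
        rw [h2]
      · intro hf e
        have hf' : rest.free = true := by
          have : (g.free && g.okB c && rest.free) = true := hf
          rw [Bool.and_eq_true] at this
          exact this.2
        change (((c != e) || g.allR e) && r'.okB e) = (((c != e) || g.allR e) && rest.okB e)
        rw [h3 hf' e]

/-- M5. -/
theorem main : BasicStm → TopMoveStm := by
  intro B f hf
  obtain ⟨f', h1, h2, -, -⟩ := forP B f hf
  exact ⟨f', h1, h2⟩

end MMR.M5

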