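import Pool.Agent.R666.MM.Stms

/-!
# MP_488bb9_co, piece M6: white moves
-/

set_option autoImplicit false

namespace MMR.M6

open MMR MMR.F Classical

/-- The value of a forest splits off the first tree. -/
theorem val_node (c : Bool) (ch rest : F) :
    (node c ch rest).val = (node c ch nil).val + rest.val := by
  cases c <;> simp [F.val]

theorem root_val (hB : BasicStm) : ∀ f f' : F, Root true f f' → f'.val ≤ f.val - 1 := by
  intro f f' h
  induction h with
  | here ch rest =>
    rw [hB.2.2.1]
    have h1 : 1 + ch.val ≤ max (ch.top + if (ch.free && ch.okB true) = true then 1 else 0)
      (1 + ch.val) := le_max_right _ _
    simp only [F.val]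
    linarith
  | next c ch rest rest' _ ih =>
    rw [val_node c ch rest, val_node c ch rest']
    linarith

theorem main : BasicStm → ValDecStm → TopMoveStm → WhiteStm := by
  intro hB hV hT
  refine ⟨?_, ?_⟩
  · intro f f' h
    rcases h with h | h
    · exact (hV f f' h).1
    · exact root_val hB f f' h
  · intro f
    induction f with
    | nil => intro h; exact absurd h (by simp [F.val])
    | node c ch rest _ ih =>
      intro hpos
      by_cases hr : 0 < rest.val
      · obtain ⟨rest', hm, hv⟩ := ih hr
        refine ⟨node c ch rest', ?_, ?_⟩
        · rcases hm with h | h
          · exact Or.inl (Leaf.next c ch rest rest' h)
          · exact Or.inr (Root.next c ch rest rest' h)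
        · rw [val_node c ch rest, val_node c ch rest', hv]
          ring
      · have ht : 0 < (node c ch nil).val := by
          rw [val_node c ch rest] at hpos
          linarith
        -- either remove the root, or `top` is positive
        have hcase : (c = true ∧ (node c ch nil).val = 1 + ch.val) ∨
            0 < (node c ch nil).top := by
          cases c with
          | true =>
            have e1 : (node true ch nil).val =
              max (ch.top + if (ch.free && ch.okB true) = true then 1 else 0) (1 + ch.val) := by
              simp [F.val]
            have e2 : (node true ch nil).top =
              ch.top + if (ch.free && ch.okB true) = true then 1 else 0 := by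
              simp [F.top, sg]
            rcases le_total (ch.top + if (ch.free && ch.okB true) = true then 1 else 0)
              (1 + ch.val) with h | h
            · left
              exact ⟨rfl, by rw [e1, max_eq_right h]⟩
            · right
              rw [e1, max_eq_left h] at ht
              rw [e2]
              exact ht
          | false =>
            right
            have e1 : (node false ch nil).val =
              min (ch.top + if (ch.free && ch.okB false) = true then -1 else 0) (-1 + ch.val) := by
              simp [F.val]
            have e2 : (node false ch nil).top =
              ch.top + if (ch.free && ch.okB false) = true then -1 else 0 := by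
              simp [F.top, sg]
            rw [e1] at ht
            rw [e2]
            exact lt_of_lt_of_le ht (min_le_left _ _)
        rcases hcase with ⟨hc, hv⟩ | htop
        · subst hc
          refine ⟨ch.app rest, Or.inr (Root.here ch rest), ?_⟩
          rw [hB.2.2.1, val_node true ch rest, hv]
          ring
        · obtain ⟨t', hl, htt⟩ := hT _ htop
          have hv := (hV _ _ hl).2 htt
          cases hl with
          | here =>
            refine ⟨rest, Or.inl (Leaf.here rest), ?_⟩
            rw [val_node true nil rest]
            have h0 : (nil : F).val = 0 := rfl
            rw [h0] at hv
            linarith
          | down _ _ ch' _ hl =>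
            refine ⟨node c ch' rest, Or.inl (Leaf.down c ch ch' rest hl), ?_⟩
            rw [val_node c ch rest, val_node c ch' rest, hv]
            ring
          | next _ _ _ rest' hl => cases hl

end MMR.M6
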