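import Pool.Agent.R666.MM.Stms

/-! MP_488bb9_co, piece M7: exchange of the colours. -/

set_option autoImplicit false

namespace MMR.M7

open MMR MMR.F

lemma neg_neg' (f : F) : f.neg.neg = f := by
  induction f with
  | nil => rfl
  | node c ch rest ih1 ih2 => simp [F.neg, ih1, ih2]

lemma neg_app (f g : F) : (f.app g).neg = f.neg.app g.neg := by
  induction f with
  | nil => rfl
  | node c ch rest ih1 ih2 => simp [F.neg, F.app, ih2]

lemma allR_neg (c : Bool) (f : F) : f.neg.allR c = f.allR (!c) := by
  induction f with
  | nil => rfl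
  | node d ch rest ih1 ih2 =>
    simp only [F.neg, F.allR, ih2]
    cases c <;> cases d <;> rfl

lemma okB_neg (c : Bool) (f : F) : f.neg.okB c = f.okB (!c) := by
  induction f with
  | nil => rfl
  | node d ch rest ih1 ih2 =>
    simp only [F.neg, F.okB, ih2, allR_neg]
    cases c <;> cases d <;> rfl

lemma free_neg (f : F) : f.neg.free = f.free := by
  induction f with
  | nil => rfl
  | node d ch rest ih1 ih2 =>
    simp only [F.neg, F.free, ih1, ih2, okB_neg, Bool.not_not]

lemma sg_not (c : Bool) : sg (!c) = - sg c := by cases c <;> simp [sg]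

lemma top_neg (f : F) : f.neg.top = - f.top := by
  induction f with
  | nil => rfl
  | node d ch rest ih1 ih2 =>
    simp only [F.neg, F.top, ih1, ih2, okB_neg, Bool.not_not, free_neg, sg_not]
    split_ifs <;> ring

lemma val_neg (f : F) : f.neg.val = - f.val := by
  induction f with
  | nil => rfl
  | node d ch rest ih1 ih2 =>
    cases d
    · simp only [F.neg, F.val, ih1, ih2, okB_neg, Bool.not_true, Bool.not_false, free_neg, top_neg]
      split_ifs <;> omega
    · simp only [F.neg, F.val, ih1, ih2, okB_neg, Bool.not_true, Bool.not_false, free_neg, top_neg]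
      split_ifs <;> omega

lemma leaf_neg {p : Bool} {f f' : F} (h : Leaf p f f') : Leaf (!p) f.neg f'.neg := by
  induction h with
  | here rest => exact Leaf.here _
  | down c ch ch' rest _ ih => exact Leaf.down _ _ _ _ ih
  | next c ch rest rest' _ ih => exact Leaf.next _ _ _ _ ih

lemma root_neg {p : Bool} {f f' : F} (h : Root p f f') : Root (!p) f.neg f'.neg := by
  induction h with
  | here ch rest =>
    rw [neg_app]
    exact Root.here _ _
  | next c ch rest rest' _ ih => exact Root.next _ _ _ _ ih

lemma move_neg {p : Bool} {f f' : F} (h : Move p f f') : Move (!p) f.neg f'.neg :=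
  h.elim (fun h => Or.inl (leaf_neg h)) (fun h => Or.inr (root_neg h))

theorem main : WhiteStm → BlackStm := by
  rintro ⟨h1, h2⟩
  refine ⟨fun f f' h => ?_, fun f hf => ?_⟩
  · have := h1 _ _ (move_neg h)
    rw [val_neg, val_neg] at this
    omega
  · obtain ⟨g, hg, hv⟩ := h2 f.neg (by rw [val_neg]; omega)
    have h3 := move_neg hg
    rw [neg_neg'] at h3
    refine ⟨g.neg, h3, ?_⟩
    rw [val_neg] at hv ⊢
    omega

end MMR.M7
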