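import Pool.Agent.R666.MM.Stms

namespace MMR.M8

open MMR MMR.F Classical

/-- number of nodes -/
def size : F → ℕ
  | nil => 0
  | node _ ch rest => 1 + size ch + size rest

lemma size_app (f g : F) : size (f.app g) = size f + size g := by
  induction f with
  | nil => simp [F.app, size]
  | node c ch rest _ ih => simp only [F.app, size, ih]; omega

lemma size_leaf {p : Bool} {f f' : F} (h : Leaf p f f') : size f = size f' + 1 := by
  induction h with
  | here rest => simp only [size]; omega
  | down c ch ch' rest _ ih => simp only [size]; omega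
  | next c ch rest rest' _ ih => simp only [size]; omega

lemma size_root {p : Bool} {f f' : F} (h : Root p f f') : size f = size f' + 1 := by
  induction h with
  | here ch rest => simp only [size, size_app]; omega
  | next c ch rest rest' _ ih => simp only [size]; omega

lemma size_move {p : Bool} {f f' : F} (h : Move p f f') : size f = size f' + 1 :=
  h.elim size_leaf size_root

/-- score of a position -/
def sc (X : F × ℕ × ℕ) : ℤ := X.1.val + X.2.1 - X.2.2

/-- size of a position -/
def sz (X : F × ℕ × ℕ) : ℕ := size X.1 + X.2.1 + X.2.2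

lemma plus_size {p : Bool} {X Y : F × ℕ × ℕ} (h : Plus Move p X Y) : sz X = sz Y + 1 := by
  unfold sz
  rcases h with ⟨h1, h2, h3⟩ | ⟨_, h1, h2, h3⟩ | ⟨_, h1, h2, h3⟩
  · have := size_move h1
    omega
  · rw [h1]; omega
  · rw [h1]; omega

lemma plus_true (hW : WhiteStm) {X Y : F × ℕ × ℕ} (h : Plus Move true X Y) :
    sc Y ≤ sc X - 1 := by
  unfold sc
  rcases h with ⟨h1, h2, h3⟩ | ⟨_, h1, h2, h3⟩ | ⟨h0, _⟩
  · have := hW.1 _ _ h1
    rw [h2, h3]; omega
  · rw [h1, h2, h3]; push_cast; omega
  · exact absurd h0 (by decide)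

lemma plus_false (hB : BlackStm) {X Y : F × ℕ × ℕ} (h : Plus Move false X Y) :
    sc X + 1 ≤ sc Y := by
  unfold sc
  rcases h with ⟨h1, h2, h3⟩ | ⟨h0, _⟩ | ⟨_, h1, h2, h3⟩
  · have := hB.1 _ _ h1
    rw [h2, h3]; omega
  · exact absurd h0 (by decide)
  · rw [h1, h2, h3]; push_cast; omega

lemma ex_true (hW : WhiteStm) (X : F × ℕ × ℕ) (h : 0 < sc X) :
    ∃ Y, Plus Move true X Y ∧ sc Y = sc X - 1 := by
  obtain ⟨f, a, b⟩ := X
  by_cases hf : 0 < f.val
  · obtain ⟨f', h1, h2⟩ := hW.2 f hf
    refine ⟨(f', a, b), Or.inl ⟨h1, rfl, rfl⟩, ?_⟩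
    simp only [sc] at *
    omega
  · simp only [sc] at h
    obtain ⟨a', rfl⟩ : ∃ a', a = a' + 1 := ⟨a - 1, by omega⟩
    refine ⟨(f, a', b), Or.inr (Or.inl ⟨rfl, rfl, rfl, rfl⟩), ?_⟩
    simp only [sc]
    push_cast
    omega

lemma ex_false (hB : BlackStm) (X : F × ℕ × ℕ) (h : sc X < 0) :
    ∃ Y, Plus Move false X Y ∧ sc Y = sc X + 1 := by
  obtain ⟨f, a, b⟩ := X
  by_cases hf : f.val < 0
  · obtain ⟨f', h1, h2⟩ := hB.2 f hf
    refine ⟨(f', a, b), Or.inl ⟨h1, rfl, rfl⟩, ?_⟩
    simp only [sc] at *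
    omega
  · simp only [sc] at h
    obtain ⟨b', rfl⟩ : ∃ b', b = b' + 1 := ⟨b - 1, by omega⟩
    refine ⟨(f, a, b'), Or.inr (Or.inr ⟨rfl, rfl, rfl, rfl⟩), ?_⟩
    simp only [sc]
    push_cast
    omega

lemma wins_inv {X : Type} {mv : Bool → X → X → Prop} {p : Bool} {x : X} (h : Wins mv p x) :
    ∃ y, mv p x y ∧ ∀ z, mv (!p) y z → Wins mv p z := by
  cases h with
  | mk _ y hm hall => exact ⟨y, hm, hall⟩

lemma outcome (hW : WhiteStm) (hB : BlackStm) : ∀ (n : ℕ) (X : F × ℕ × ℕ), sz X ≤ n →
    (Wins (Plus Move) true X ↔ 0 < sc X) ∧ (Wins (Plus Move) false X ↔ sc X < 0) := by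
  intro n
  induction n with
  | zero =>
    intro X hX
    refine ⟨⟨?_, ?_⟩, ⟨?_, ?_⟩⟩
    · intro hw
      obtain ⟨y, hm, _⟩ := wins_inv hw
      have := plus_size hm
      omega
    · intro h
      obtain ⟨Y, hY, _⟩ := ex_true hW X h
      have := plus_size hY
      omega
    · intro hw
      obtain ⟨y, hm, _⟩ := wins_inv hw
      have := plus_size hm
      omega
    · intro h
      obtain ⟨Y, hY, _⟩ := ex_false hB X h
      have := plus_size hY
      omega
  | succ n ih =>
    intro X hX
    refine ⟨⟨?_, ?_⟩, ⟨?_, ?_⟩⟩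
    · intro hw
      obtain ⟨y, hm, hall⟩ := wins_inv hw
      by_contra hcon
      have h1 := plus_true hW hm
      have h0 := plus_size hm
      obtain ⟨z, hz, hzs⟩ := ex_false hB y (by omega)
      have h2 := plus_size hz
      have h3 := hall z hz
      have h4 := (ih z (by omega)).1.1 h3
      omega
    · intro h
      obtain ⟨Y, hY, hYs⟩ := ex_true hW X h
      refine Wins.mk true X Y hY ?_
      intro z hz
      have h0 := plus_size hY
      have h2 := plus_size hz
      have h1 := plus_false hB hz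
      exact (ih z (by omega)).1.2 (by omega)
    · intro hw
      obtain ⟨y, hm, hall⟩ := wins_inv hw
      by_contra hcon
      have h1 := plus_false hB hm
      have h0 := plus_size hm
      obtain ⟨z, hz, hzs⟩ := ex_true hW y (by omega)
      have h2 := plus_size hz
      have h3 := hall z hz
      have h4 := (ih z (by omega)).2.1 h3
      omega
    · intro h
      obtain ⟨Y, hY, hYs⟩ := ex_false hB X h
      refine Wins.mk false X Y hY ?_
      intro z hz
      have h0 := plus_size hY
      have h2 := plus_size hz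
      have h1 := plus_true hW hz
      exact (ih z (by omega)).2.2 (by omega)

theorem main : WhiteStm → BlackStm → GameStm := by
  intro hW hB f a b
  exact outcome hW hB _ (f, a, b) le_rfl

end MMR.M8
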