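import Pool.Agent.R666.MM.Asm
import Pool.Agent.R666.MM.M1
import Pool.Agent.R666.MM.M2
import Pool.Agent.R666.MM.M3
import Pool.Agent.R666.MM.M4
import Pool.Agent.R666.MM.M5
import Pool.Agent.R666.MM.M6
import Pool.Agent.R666.MM.M7
import Pool.Agent.R666.MM.M8
import Pool.Agent.R666.MM.E1
import Pool.Agent.R666.MM.E2
import Pool.Agent.R666.MM.E3
import Pool.Agent.R666.MM.E4
import Pool.Agent.R666.MM.E5
import Pool.Agent.R666.MM.E6

namespace MMR

theorem answer : Target := by
  have b := M1.main
  have k := M2.main b
  have t := M3.main b k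
  have vd := M4.main b k t
  have tm := M5.main b
  have w := M6.main b vd tm
  have bl := M7.main w
  exact assembly b (M8.main w bl) E1.main E2.main E3.main E4.main E5.main E6.main

end MMR
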