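import Pool.Agent.R666.MM.Stms

namespace MMR

open Classical

theorem assembly (hB : BasicStm) (hG : GameStm) (e1 : EncExStm) (e2 : EncMoveStm)
    (e3 : MoveEncStm) (e4 : BisimStm) (e5 : FormulaStm) (e6 : DeltaStm) : Target := by
  intro α _ _ col hf
  refine ⟨e6 α col, fun δ hδ n => ?_⟩
  obtain ⟨f, hfe⟩ := e1 α col hf Finset.univ
  have hform := e5 α col δ hδ f hfe
  have hval := hB.2.1 f
  have bis := e4 (Finset α) F (Mv col) Move (Enc col)
    (fun g h hgh p g' hm => e2 α col g h hgh p g' hm)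
    (fun g h hgh p h' hm => e3 α col g h hgh p h' hm) Finset.univ f hfe
  unfold HasValue
  rw [bis, bis, (hG f _ _).1, (hG f _ _).2, hform, ← hval]
  omega

end MMR
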