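import Mathlib

/-!
# MP_488bb9_co: the min-max-removal game on coloured forest posets

Definitions for the statement.  `true` is White (Left), `false` is Black (Right).
-/

namespace MMR

open Classical

/-- `+1` for a white element, `-1` for a black element. -/
def sg (c : Bool) : ℤ := if c then 1 else -1

/-! ## Games -/

/-- `Wins mv p x`: the player `p`, who moves next in the position `x`, has a winning strategy
(`mv p x y`: the player `p` can move from `x` to `y`; a player who cannot move loses). -/
inductive Wins {X : Type} (mv : Bool → X → X → Prop) : Bool → X → Prop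
  | mk (p : Bool) (x y : X) : mv p x y → (∀ z, mv (!p) y z → Wins mv p z) → Wins mv p x

/-- The game `mv` together with `a` free moves of White and `b` free moves of Black (the disjunctive
sum with the integers `a` and `-b`): the positions are triples `(g, a, b)`. -/
def Plus {G : Type} (mv : Bool → G → G → Prop) (p : Bool) (X Y : G × ℕ × ℕ) : Prop :=
  (mv p X.1 Y.1 ∧ Y.2.1 = X.2.1 ∧ Y.2.2 = X.2.2) ∨
  (p = true ∧ Y.1 = X.1 ∧ X.2.1 = Y.2.1 + 1 ∧ Y.2.2 = X.2.2) ∨
  (p = false ∧ Y.1 = X.1 ∧ Y.2.1 = X.2.1 ∧ X.2.2 = Y.2.2 + 1)

/-- The position `g` has the integer value `n`: the sum `g - n` is a win for the player who moves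
second (for both choices of the first player). -/
def HasValue {G : Type} (mv : Bool → G → G → Prop) (g : G) (n : ℤ) : Prop :=
  ¬ Wins (Plus mv) true (g, (-n).toNat, n.toNat) ∧ ¬ Wins (Plus mv) false (g, (-n).toNat, n.toNat)

/-! ## The min-max-removal game on a coloured poset -/

variable {α : Type} [PartialOrder α]

/-- A move of the player `p`: from the set `S` of elements still present remove an element of the
colour of `p` that is maximal or minimal in `S`. -/
def Mv (col : α → Bool) (p : Bool) (S S' : Finset α) : Prop :=
  ∃ x ∈ S, col x = p ∧ ((∀ y ∈ S, ¬ x < y) ∨ (∀ y ∈ S, ¬ y < x)) ∧ S' = S.erase x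

/-- Forest posets: every element covers at most one element. -/
def Forest (α : Type) [PartialOrder α] : Prop := ∀ x y z : α, y ⋖ x → z ⋖ x → y = z

/-- `x` is in the essential part: there is no blocking triple `x' ⋖ y ⋖ z` with `x ≤ x'`. -/
def Ess (col : α → Bool) (x : α) : Prop :=
  ∀ x' y z, x ≤ x' → x' ⋖ y → y ⋖ z → ¬ (col x' = col y ∧ col z ≠ col x')

/-- The function `δ` on the poset: `0` on the essential part, and outside of it
`max 0 (1 + ∑ δ)` at white and `min 0 (-1 + ∑ δ)` at black elements, the sums over the upper
covers. -/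
def IsDelta [Fintype α] (col : α → Bool) (δ : α → ℤ) : Prop :=
  ∀ x, δ x = if Ess col x then 0 else
    if col x = true then max 0 (1 + ∑ y with x ⋖ y, δ y) else min 0 (-1 + ∑ y with x ⋖ y, δ y)

/-- The formula: (white minus black) on the essential part plus the sum of `δ` over the minimal
elements. -/
noncomputable def formula [Fintype α] (col : α → Bool) (δ : α → ℤ) : ℤ :=
  ∑ x with Ess col x, sg (col x) + ∑ x with (∀ y : α, ¬ y < x), δ x

/-- The target. -/
def Target : Prop :=
  ∀ (α : Type) [PartialOrder α] [Fintype α] (col : α → Bool), Forest α →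
    (∃ δ, IsDelta col δ) ∧ ∀ δ, IsDelta col δ → ∀ n : ℤ,
      HasValue (Mv col) (Finset.univ : Finset α) n ↔ n = formula col δ

end MMR
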