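import Pool.Agent.R666.MM.Defs

/-!
# Piece statements for MP_488bb9_co (project MM).  Proofs: `NOTES.md`.
-/

namespace MMR

open Classical

/-- Coloured forests: `node c ch rest` is the tree with root of colour `c` and the forest `ch`
above the root, next to the forest `rest`. -/
inductive F
  | nil
  | node (c : Bool) (ch rest : F)

namespace F

/-- Disjoint union. -/
def app : F → F → F
  | nil, g => g
  | node c ch rest, g => node c ch (rest.app g)

/-- All roots have the colour `c`. -/
def allR (c : Bool) : F → Bool
  | nil => true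
  | node d _ rest => (d == c) && rest.allR c

/-- An element of colour `c` below this forest is not the bottom of a blocking triple. -/
def okB (c : Bool) : F → Bool
  | nil => true
  | node d ch rest => ((d != c) || ch.allR c) && rest.okB c

/-- No blocking triple. -/
def free : F → Bool
  | nil => true
  | node c ch rest => ch.free && ch.okB c && rest.free

/-- White minus black. -/
def S : F → ℤ
  | nil => 0
  | node c ch rest => sg c + ch.S + rest.S

/-- White minus black on the essential part. -/
def top : F → ℤ
  | nil => 0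
  | node c ch rest => (ch.top + if ch.free && ch.okB c then sg c else 0) + rest.top

/-- The value. -/
def val : F → ℤ
  | nil => 0
  | node true ch rest =>
      max (ch.top + if ch.free && ch.okB true then 1 else 0) (1 + ch.val) + rest.val
  | node false ch rest =>
      min (ch.top + if ch.free && ch.okB false then -1 else 0) (-1 + ch.val) + rest.val

/-- The value of the lower part. -/
def bot : F → ℤ
  | nil => 0
  | node true ch rest =>
      (if ch.free && ch.okB true then 0 else max 0 (1 + ch.bot)) + rest.bot
  | node false ch rest =>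
      (if ch.free && ch.okB false then 0 else min 0 (-1 + ch.bot)) + rest.bot

/-- Exchange of the colours. -/
def neg : F → F
  | nil => nil
  | node c ch rest => node (!c) ch.neg rest.neg

end F

open F

/-- Removal of a maximal element of colour `p`. -/
inductive Leaf (p : Bool) : F → F → Prop
  | here (rest : F) : Leaf p (node p nil rest) rest
  | down (c : Bool) (ch ch' rest : F) : Leaf p ch ch' → Leaf p (node c ch rest) (node c ch' rest)
  | next (c : Bool) (ch rest rest' : F) :
      Leaf p rest rest' → Leaf p (node c ch rest) (node c ch rest')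

/-- Removal of a minimal element of colour `p`. -/
inductive Root (p : Bool) : F → F → Prop
  | here (ch rest : F) : Root p (node p ch rest) (ch.app rest)
  | next (c : Bool) (ch rest rest' : F) :
      Root p rest rest' → Root p (node c ch rest) (node c ch rest')

/-- A move of the player `p`. -/
def Move (p : Bool) (f f' : F) : Prop := Leaf p f f' ∨ Root p f f'

/-- M1: basic facts. -/
def BasicStm : Prop :=
  (∀ f : F, f.free = true → f.val = f.S ∧ f.top = f.S ∧ f.bot = 0) ∧
  (∀ f : F, f.val = f.top + f.bot) ∧
  (∀ f g : F, (f.app g).val = f.val + g.val) ∧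
  (∀ p f f', Leaf p f f' → f'.S = f.S - sg p) ∧
  (∀ p f f', Leaf p f f' → f.free = true → f'.free = true) ∧
  (∀ p c f f', Leaf p f f' → f.allR c = true → f'.allR c = true) ∧
  (∀ p f f', Leaf p f f' → f'.allR p = f.allR p) ∧
  (∀ p c f f', Leaf p f f' → f.okB c = true → f'.okB c = true) ∧
  (∀ p f f', Leaf p f f' → f'.okB p = f.okB p)

/-- M2: the key lemma on removals that destroy all blocking triples. -/
def KeyStm : Prop :=
  ∀ g g' : F, Leaf true g g' → g.free = false → g'.free = true →
    (1 ≤ g.top - g.S ∧ (g.top - g.S = 1 → g.val = g.S) ∧ g'.allR true = false) ∨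
    (0 ≤ g.top - g.S ∧ (g.top - g.S = 0 → g.val = g.S) ∧ g'.okB true = false)

/-- M3: a white top move decreases `top`. -/
def TopDecStm : Prop := ∀ f f' : F, Leaf true f f' → f'.top ≤ f.top - 1

/-- M4: a white top move decreases `val`, by exactly one if it decreases `top` by exactly one. -/
def ValDecStm : Prop :=
  ∀ f f' : F, Leaf true f f' → f'.val ≤ f.val - 1 ∧ (f'.top = f.top - 1 → f'.val = f.val - 1)

/-- M5: good white top moves exist if `top` is positive. -/
def TopMoveStm : Prop := ∀ f : F, 0 < f.top → ∃ f', Leaf true f f' ∧ f'.top = f.top - 1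

/-- M6: white moves. -/
def WhiteStm : Prop :=
  (∀ f f' : F, Move true f f' → f'.val ≤ f.val - 1) ∧
  (∀ f : F, 0 < f.val → ∃ f', Move true f f' ∧ f'.val = f.val - 1)

/-- M7: black moves. -/
def BlackStm : Prop :=
  (∀ f f' : F, Move false f f' → f.val + 1 ≤ f'.val) ∧
  (∀ f : F, f.val < 0 → ∃ f', Move false f f' ∧ f'.val = f.val + 1)

/-- M8: the outcome of the game with free moves. -/
def GameStm : Prop :=
  ∀ (f : F) (a b : ℕ),
    (Wins (Plus Move) true (f, a, b) ↔ 0 < f.val + a - b) ∧
    (Wins (Plus Move) false (f, a, b) ↔ f.val + a - b < 0)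

/-! ## Encoding of forest posets -/

/-- The forest `f` encodes the order induced on `S`. -/
inductive Enc {α : Type} [PartialOrder α] (col : α → Bool) : Finset α → F → Prop
  | nil : Enc col ∅ nil
  | node (S T R : Finset α) (x : α) (ch rest : F) : x ∈ S → (∀ y, y ∈ T ↔ y ∈ S ∧ x < y) →
      (∀ y, y ∈ R ↔ y ∈ S ∧ y ≠ x ∧ ¬ x < y) → (∀ y ∈ R, ¬ y < x) →
      (∀ r ∈ R, ∀ t ∈ T, ¬ r < t ∧ ¬ t < r) → Enc col T ch → Enc col R rest →
      Enc col S (node (col x) ch rest)

/-- E1: every subset of a forest poset is encoded. -/
def EncExStm : Prop :=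
  ∀ (α : Type) [PartialOrder α] [Fintype α] (col : α → Bool), Forest α →
    ∀ S : Finset α, ∃ f, Enc col S f

/-- E2: moves of the poset game are moves in the encoding. -/
def EncMoveStm : Prop :=
  ∀ (α : Type) [PartialOrder α] [Fintype α] (col : α → Bool) (S : Finset α) (f : F),
    Enc col S f → ∀ (p : Bool) (S' : Finset α), Mv col p S S' → ∃ f', Move p f f' ∧ Enc col S' f'

/-- E3: and conversely. -/
def MoveEncStm : Prop :=
  ∀ (α : Type) [PartialOrder α] [Fintype α] (col : α → Bool) (S : Finset α) (f : F),
    Enc col S f → ∀ (p : Bool) (f' : F), Move p f f' → ∃ S', Mv col p S S' ∧ Enc col S' f'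

/-- E4: winning strategies are transferred by bisimulations. -/
def BisimStm : Prop :=
  ∀ (G H : Type) (mv : Bool → G → G → Prop) (mv' : Bool → H → H → Prop) (R : G → H → Prop),
    (∀ g h, R g h → ∀ p g', mv p g g' → ∃ h', mv' p h h' ∧ R g' h') →
    (∀ g h, R g h → ∀ p h', mv' p h h' → ∃ g', mv p g g' ∧ R g' h') →
    ∀ g h, R g h → ∀ (a b : ℕ) (p : Bool),
      (Wins (Plus mv) p (g, a, b) ↔ Wins (Plus mv') p (h, a, b))

/-- E5: the formula in the encoding. -/
def FormulaStm : Prop :=
  ∀ (α : Type) [PartialOrder α] [Fintype α] (col : α → Bool) (δ : α → ℤ), IsDelta col δ →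
    ∀ f, Enc col (Finset.univ : Finset α) f → formula col δ = f.top + f.bot

/-- E6: `δ` exists. -/
def DeltaStm : Prop :=
  ∀ (α : Type) [PartialOrder α] [Fintype α] (col : α → Bool), ∃ δ, IsDelta col δ

end MMR
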